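import Pool.Agent.H78.HL.EB
import Pool.Agent.H78.HL.E.T7

/-! Edge cell, ep = -1, U < 0, V < 0, S = W - H (generated) -/

set_option linter.all false

namespace Pool.Agent.H78.HL

open Pool.Agent.H98.Flat
open Pool.Agent.H78.Tie
open Pool.Agent.H78.Tie.TAp
open Pool.Agent.H78.RT
open Pool.Agent.H78.SV
open Pool.Agent.H81.AP (LF dot dot_nil dot_nil' dot_cons AllNn AllNe)

variable {A : TAp} {T : A.Tie}

theorem E7mpUR_c (d : ST A T (-1)) (hsg : A.sg = sgv true) (hep : T.ep = sgv false)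
    {n U S k U' S' : ℤ} (o : OV T n U S) (hU : U < 0) (ht : th A n < th A T.t)
    (hD : A.q * (A.w : ℤ) < A.D) (hDH : A.D < A.q * A.h)
    (hw : A.q * (A.w : ℤ) + -(A.q * T.x) ≤ A.q * A.h) (hV : U + S < 0)
    (hS : S = A.q * A.w - A.q * A.h) (e4 : th A n + th A T.t ≠ A.D)
    (ck : IsC A k U' S' (th A k)) (hk : k ≠ T.t) (hkn : k ≠ n)
    (b1 : U ≤ U') (b2 : U' + 4 ≤ U + A.q * A.w + A.sg)
    (b3 : S - A.q * A.h ≤ S') (b4 : S' + A.q ≤ S) (b5 : U' + S' ≤ -(A.q * A.h)) : False := by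
  have oc := o.oc d
  simp only [sgv] at hsg hep
  obtain ⟨f1, f2, f3, f4, f5, f6, f7, f8, f9, f10⟩ := d.facts
  have k1 := d.gap ck.2.1
  have k2 := d.gap ck.2.2
  rw [th_zero] at k1
  rw [th_p] at k2
  rw [th_lt_iff] at ht
  have k3 := d.gap ht
  obtain ⟨c0, c1, c2, c3, c4, c5, c6, c7, c8, c9, c10, c11, c12, c13, c14⟩ := oc
  refine goG d (sp := true) (ep := false) hsg hep o.cn ck o.nt hk hkn
    (g := E7mpUR_g) (ne := [[0, 0, 0, 0, 0, 0, -1, 0, 1], [0, 0, 0, 0, -1, 0, 1, 0, 1], [0, 0, 0, 0, 0, 0, 1, 0, 0, 0, 0, -1], [0, 0, 0, 0, 0, 0, 0, 0, 1, 0, 0, -1]])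
    (la := []) ?_ ?_ ?_ E7mpUR_k
  · try rw [hsg] at *
    unfold E7mpUR_g env
    simp only [AllNn, dot_cons, dot_nil]
    refine ⟨?_, ?_, ?_, ?_, ?_, ?_, ?_, ?_, ?_, ?_, ?_, ?_, ?_, ?_, ?_, ?_, ?_, ?_, ?_, ?_, ?_, ?_, trivial⟩ <;> linarith
  · intro e1 e2 e3
    unfold env
    simp only [AllNe, dot_cons, dot_nil]
    refine ⟨?_, ?_, ?_, ?_, trivial⟩
    · intro hh; apply e3; linarith
    · intro hh; apply e4; linarith
    · intro hh; apply e1; linarith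
    · intro hh; apply e2; linarith
  · repeat' first | exact gnil | refine gcons ?_ ?_
    all_goals (simp only [resG, sgv, dot_cons, dot_nil]; ring)

theorem E7mpLL_c (d : ST A T (-1)) (hsg : A.sg = sgv true) (hep : T.ep = sgv false)
    {n U S k U' S' : ℤ} (o : OV T n U S) (hU : U < 0) (ht : th A n < th A T.t)
    (hD : A.q * (A.w : ℤ) < A.D) (hDH : A.D < A.q * A.h)
    (hw : A.q * (A.w : ℤ) + -(A.q * T.x) ≤ A.q * A.h) (hV : U + S < 0)
    (hS : S = A.q * A.w - A.q * A.h) (e4 : th A n + th A T.t ≠ A.D)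
    (ck : IsC A k U' S' (th A k)) (hk : k ≠ T.t) (hkn : k ≠ n)
    (b1 : U + A.q * A.w + A.sg ≤ U') (b2 : S - A.q * A.w ≤ S')
    (b3 : S' + A.q ≤ S) (b4 : U' + S' ≤ 0) : False := by
  have oc := o.oc d
  simp only [sgv] at hsg hep
  obtain ⟨f1, f2, f3, f4, f5, f6, f7, f8, f9, f10⟩ := d.facts
  have k1 := d.gap ck.2.1
  have k2 := d.gap ck.2.2
  rw [th_zero] at k1
  rw [th_p] at k2
  rw [th_lt_iff] at ht
  have k3 := d.gap ht
  obtain ⟨c0, c1, c2, c3, c4, c5, c6, c7, c8, c9, c10, c11, c12, c13, c14⟩ := oc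
  refine goG d (sp := true) (ep := false) hsg hep o.cn ck o.nt hk hkn
    (g := E7mpLL_g) (ne := [[0, 0, 0, 0, 0, 0, -1, 0, 1], [0, 0, 0, 0, -1, 0, 1, 0, 1], [0, 0, 0, 0, 0, 0, 1, 0, 0, 0, 0, -1], [0, 0, 0, 0, 0, 0, 0, 0, 1, 0, 0, -1]])
    (la := []) ?_ ?_ ?_ E7mpLL_k
  · try rw [hsg] at *
    unfold E7mpLL_g env
    simp only [AllNn, dot_cons, dot_nil]
    refine ⟨?_, ?_, ?_, ?_, ?_, ?_, ?_, ?_, ?_, ?_, ?_, ?_, ?_, ?_, ?_, ?_, ?_, ?_, ?_, ?_, ?_, trivial⟩ <;> linarith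
  · intro e1 e2 e3
    unfold env
    simp only [AllNe, dot_cons, dot_nil]
    refine ⟨?_, ?_, ?_, ?_, trivial⟩
    · intro hh; apply e3; linarith
    · intro hh; apply e4; linarith
    · intro hh; apply e1; linarith
    · intro hh; apply e2; linarith
  · repeat' first | exact gnil | refine gcons ?_ ?_
    all_goals (simp only [resG, sgv, dot_cons, dot_nil]; ring)

theorem E7mmUR_c (d : ST A T (-1)) (hsg : A.sg = sgv false) (hep : T.ep = sgv false)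
    {n U S k U' S' : ℤ} (o : OV T n U S) (hU : U < 0) (ht : th A n < th A T.t)
    (hD : A.q * (A.w : ℤ) < A.D) (hDH : A.D < A.q * A.h)
    (hw : A.q * (A.w : ℤ) + -(A.q * T.x) ≤ A.q * A.h) (hV : U + S < 0)
    (hS : S = A.q * A.w - A.q * A.h) (e4 : th A n + th A T.t ≠ A.D)
    (ck : IsC A k U' S' (th A k)) (hk : k ≠ T.t) (hkn : k ≠ n)
    (b1 : U ≤ U') (b2 : U' + 4 ≤ U + A.q * A.w + A.sg)
    (b3 : S - A.q * A.h ≤ S') (b4 : S' + A.q ≤ S) (b5 : U' + S' ≤ -(A.q * A.h)) : False := by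
  have oc := o.oc d
  simp only [sgv] at hsg hep
  obtain ⟨f1, f2, f3, f4, f5, f6, f7, f8, f9, f10⟩ := d.facts
  have k1 := d.gap ck.2.1
  have k2 := d.gap ck.2.2
  rw [th_zero] at k1
  rw [th_p] at k2
  rw [th_lt_iff] at ht
  have k3 := d.gap ht
  obtain ⟨c0, c1, c2, c3, c4, c5, c6, c7, c8, c9, c10, c11, c12, c13, c14⟩ := oc
  refine goG d (sp := false) (ep := false) hsg hep o.cn ck o.nt hk hkn
    (g := E7mmUR_g) (ne := [[0, 0, 0, 0, 0, 0, -1, 0, 1], [0, 0, 0, 0, -1, 0, 1, 0, 1], [0, 0, 0, 0, 0, 0, 1, 0, 0, 0, 0, -1], [0, 0, 0, 0, 0, 0, 0, 0, 1, 0, 0, -1]])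
    (la := [[0, 0, 0, -1, 0, 0, 0, 0, 0, 0, 0, 0, -1]]) ?_ ?_ ?_ E7mmUR_k
  · try rw [hsg] at *
    unfold E7mmUR_g env
    simp only [AllNn, dot_cons, dot_nil]
    refine ⟨?_, ?_, ?_, ?_, ?_, ?_, ?_, ?_, ?_, ?_, ?_, ?_, ?_, ?_, ?_, ?_, ?_, ?_, ?_, ?_, ?_, ?_, trivial⟩ <;> linarith
  · intro e1 e2 e3
    unfold env
    simp only [AllNe, dot_cons, dot_nil]
    refine ⟨?_, ?_, ?_, ?_, trivial⟩
    · intro hh; apply e3; linarith
    · intro hh; apply e4; linarith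
    · intro hh; apply e1; linarith
    · intro hh; apply e2; linarith
  · repeat' first | exact gnil | refine gcons ?_ ?_
    all_goals (simp only [resG, sgv, dot_cons, dot_nil]; ring)

theorem E7mmLL_c (d : ST A T (-1)) (hsg : A.sg = sgv false) (hep : T.ep = sgv false)
    {n U S k U' S' : ℤ} (o : OV T n U S) (hU : U < 0) (ht : th A n < th A T.t)
    (hD : A.q * (A.w : ℤ) < A.D) (hDH : A.D < A.q * A.h)
    (hw : A.q * (A.w : ℤ) + -(A.q * T.x) ≤ A.q * A.h) (hV : U + S < 0)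
    (hS : S = A.q * A.w - A.q * A.h) (e4 : th A n + th A T.t ≠ A.D)
    (ck : IsC A k U' S' (th A k)) (hk : k ≠ T.t) (hkn : k ≠ n)
    (b1 : U + A.q * A.w + A.sg ≤ U') (b2 : S - A.q * A.w ≤ S')
    (b3 : S' + A.q ≤ S) (b4 : U' + S' ≤ 0) : False := by
  have oc := o.oc d
  simp only [sgv] at hsg hep
  obtain ⟨f1, f2, f3, f4, f5, f6, f7, f8, f9, f10⟩ := d.facts
  have k1 := d.gap ck.2.1
  have k2 := d.gap ck.2.2
  rw [th_zero] at k1
  rw [th_p] at k2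
  rw [th_lt_iff] at ht
  have k3 := d.gap ht
  obtain ⟨c0, c1, c2, c3, c4, c5, c6, c7, c8, c9, c10, c11, c12, c13, c14⟩ := oc
  refine goG d (sp := false) (ep := false) hsg hep o.cn ck o.nt hk hkn
    (g := E7mmLL_g) (ne := [[0, 0, 0, 0, 0, 0, -1, 0, 1], [0, 0, 0, 0, -1, 0, 1, 0, 1], [0, 0, 0, 0, 0, 0, 1, 0, 0, 0, 0, -1], [0, 0, 0, 0, 0, 0, 0, 0, 1, 0, 0, -1]])
    (la := []) ?_ ?_ ?_ E7mmLL_k
  · try rw [hsg] at *
    unfold E7mmLL_g env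
    simp only [AllNn, dot_cons, dot_nil]
    refine ⟨?_, ?_, ?_, ?_, ?_, ?_, ?_, ?_, ?_, ?_, ?_, ?_, ?_, ?_, ?_, ?_, ?_, ?_, ?_, ?_, ?_, trivial⟩ <;> linarith
  · intro e1 e2 e3
    unfold env
    simp only [AllNe, dot_cons, dot_nil]
    refine ⟨?_, ?_, ?_, ?_, trivial⟩
    · intro hh; apply e3; linarith
    · intro hh; apply e4; linarith
    · intro hh; apply e1; linarith
    · intro hh; apply e2; linarith
  · repeat' first | exact gnil | refine gcons ?_ ?_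
    all_goals (simp only [resG, sgv, dot_cons, dot_nil]; ring)

end Pool.Agent.H78.HL
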