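import Pool.Agent.H78.HL.EB
import Pool.Agent.H78.HL.E.T2

/-! Edge cells, ep = 1, V < 0, S <= W - H (generated) -/

set_option linter.all false

namespace Pool.Agent.H78.HL

open Pool.Agent.H98.Flat
open Pool.Agent.H78.Tie
open Pool.Agent.H78.Tie.TAp
open Pool.Agent.H78.RT
open Pool.Agent.H78.SV
open Pool.Agent.H81.AP (LF dot dot_nil dot_nil' dot_cons AllNn AllNe)

variable {A : TAp} {T : A.Tie}

theorem E2ppUR_c (d : ST A T (1)) (hsg : A.sg = sgv true) (hep : T.ep = sgv true)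
    {n U S k U' S' : ℤ} (o : OV T n U S) (f : FT T n U) (hD : A.q * (A.w : ℤ) < A.D)
    (hw : A.q * (A.w : ℤ) + A.q * T.x ≤ A.q * A.h) (hV : U + S < 0)
    (hS : S ≤ A.q * A.w - A.q * A.h) (ck : IsC A k U' S' (th A k)) (hk : k ≠ T.t) (hkn : k ≠ n)
    (b1 : U ≤ U') (b2 : U' + 4 ≤ U + A.q * A.w + A.sg)
    (b3 : S - A.q * A.h ≤ S') (b4 : S' + A.q ≤ S) (b5 : U' + S' ≤ -(A.q * A.h)) : False := by
  have oc := o.oc d
  have fg := f.g d
  have hU := f.u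
  rw [hep] at hU
  simp only [sgv] at hU
  simp only [sgv] at hsg hep
  obtain ⟨f1, f2, f3, f4, f5, f6, f7, f8, f9, f10⟩ := d.facts
  have k1 := d.gap ck.2.1
  have k2 := d.gap ck.2.2
  rw [th_zero] at k1
  rw [th_p] at k2
  obtain ⟨c0, c1, c2, c3, c4, c5, c6, c7, c8, c9, c10, c11, c12, c13, c14⟩ := oc
  refine goG d (sp := true) (ep := true) hsg hep o.cn ck o.nt hk hkn
    (g := E2ppUR_g) (ne := [[0, 0, 0, 0, 0, 0, -1, 0, 1], [0, 0, 0, 0, -1, 0, 1, 0, 1], [0, 0, 0, 0, 0, 0, 1, 0, 0, 0, 0, -1], [0, 0, 0, 0, 0, 0, 0, 0, 1, 0, 0, -1]])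
    (la := []) ?_ ?_ ?_ E2ppUR_k
  · try rw [hsg] at *
    unfold E2ppUR_g env
    simp only [AllNn, dot_cons, dot_nil]
    refine ⟨?_, ?_, ?_, ?_, ?_, ?_, ?_, ?_, ?_, ?_, ?_, ?_, ?_, ?_, ?_, ?_, ?_, ?_, ?_, ?_, trivial⟩ <;> linarith
  · intro e1 e2 e3
    unfold env
    simp only [AllNe, dot_cons, dot_nil]
    refine ⟨?_, ?_, ?_, ?_, trivial⟩
    · intro hh; apply e3; linarith
    · intro hh; linarith
    · intro hh; apply e1; linarith
    · intro hh; apply e2; linarith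
  · repeat' first | exact gnil | refine gcons ?_ ?_
    all_goals (simp only [resG, sgv, dot_cons, dot_nil]; ring)

theorem E2ppLL_c (d : ST A T (1)) (hsg : A.sg = sgv true) (hep : T.ep = sgv true)
    {n U S k U' S' : ℤ} (o : OV T n U S) (f : FT T n U) (hD : A.q * (A.w : ℤ) < A.D)
    (hw : A.q * (A.w : ℤ) + A.q * T.x ≤ A.q * A.h) (hV : U + S < 0)
    (hS : S ≤ A.q * A.w - A.q * A.h) (ck : IsC A k U' S' (th A k)) (hk : k ≠ T.t) (hkn : k ≠ n)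
    (b1 : U + A.q * A.w + A.sg ≤ U') (b2 : S - A.q * A.w ≤ S')
    (b3 : S' + A.q ≤ S) (b4 : U' + S' ≤ 0) : False := by
  have oc := o.oc d
  have fg := f.g d
  have hU := f.u
  rw [hep] at hU
  simp only [sgv] at hU
  simp only [sgv] at hsg hep
  obtain ⟨f1, f2, f3, f4, f5, f6, f7, f8, f9, f10⟩ := d.facts
  have k1 := d.gap ck.2.1
  have k2 := d.gap ck.2.2
  rw [th_zero] at k1
  rw [th_p] at k2
  obtain ⟨c0, c1, c2, c3, c4, c5, c6, c7, c8, c9, c10, c11, c12, c13, c14⟩ := oc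
  refine goG d (sp := true) (ep := true) hsg hep o.cn ck o.nt hk hkn
    (g := E2ppLL_g) (ne := [[0, 0, 0, 0, 0, 0, -1, 0, 1], [0, 0, 0, 0, -1, 0, 1, 0, 1], [0, 0, 0, 0, 0, 0, 1, 0, 0, 0, 0, -1], [0, 0, 0, 0, 0, 0, 0, 0, 1, 0, 0, -1]])
    (la := []) ?_ ?_ ?_ E2ppLL_k
  · try rw [hsg] at *
    unfold E2ppLL_g env
    simp only [AllNn, dot_cons, dot_nil]
    refine ⟨?_, ?_, ?_, ?_, ?_, ?_, ?_, ?_, ?_, ?_, ?_, ?_, ?_, ?_, ?_, ?_, ?_, ?_, ?_, trivial⟩ <;> linarith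
  · intro e1 e2 e3
    unfold env
    simp only [AllNe, dot_cons, dot_nil]
    refine ⟨?_, ?_, ?_, ?_, trivial⟩
    · intro hh; apply e3; linarith
    · intro hh; linarith
    · intro hh; apply e1; linarith
    · intro hh; apply e2; linarith
  · repeat' first | exact gnil | refine gcons ?_ ?_
    all_goals (simp only [resG, sgv, dot_cons, dot_nil]; ring)

theorem E2pmUR_c (d : ST A T (1)) (hsg : A.sg = sgv false) (hep : T.ep = sgv true)
    {n U S k U' S' : ℤ} (o : OV T n U S) (f : FT T n U) (hD : A.q * (A.w : ℤ) < A.D)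
    (hw : A.q * (A.w : ℤ) + A.q * T.x ≤ A.q * A.h) (hV : U + S < 0)
    (hS : S ≤ A.q * A.w - A.q * A.h) (ck : IsC A k U' S' (th A k)) (hk : k ≠ T.t) (hkn : k ≠ n)
    (b1 : U ≤ U') (b2 : U' + 4 ≤ U + A.q * A.w + A.sg)
    (b3 : S - A.q * A.h ≤ S') (b4 : S' + A.q ≤ S) (b5 : U' + S' ≤ -(A.q * A.h)) : False := by
  have oc := o.oc d
  have fg := f.g d
  have hU := f.u
  rw [hep] at hU
  simp only [sgv] at hU
  simp only [sgv] at hsg hep
  obtain ⟨f1, f2, f3, f4, f5, f6, f7, f8, f9, f10⟩ := d.facts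
  have k1 := d.gap ck.2.1
  have k2 := d.gap ck.2.2
  rw [th_zero] at k1
  rw [th_p] at k2
  obtain ⟨c0, c1, c2, c3, c4, c5, c6, c7, c8, c9, c10, c11, c12, c13, c14⟩ := oc
  refine goG d (sp := false) (ep := true) hsg hep o.cn ck o.nt hk hkn
    (g := E2pmUR_g) (ne := [[0, 0, 0, 0, 0, 0, -1, 0, 1], [0, 0, 0, 0, -1, 0, 1, 0, 1], [0, 0, 0, 0, 0, 0, 1, 0, 0, 0, 0, -1], [0, 0, 0, 0, 0, 0, 0, 0, 1, 0, 0, -1]])
    (la := [[0, 0, 0, -1, 0, 0, 0, 0, 0, 0, 0, 0, -1]]) ?_ ?_ ?_ E2pmUR_k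
  · try rw [hsg] at *
    unfold E2pmUR_g env
    simp only [AllNn, dot_cons, dot_nil]
    refine ⟨?_, ?_, ?_, ?_, ?_, ?_, ?_, ?_, ?_, ?_, ?_, ?_, ?_, ?_, ?_, ?_, ?_, ?_, ?_, ?_, trivial⟩ <;> linarith
  · intro e1 e2 e3
    unfold env
    simp only [AllNe, dot_cons, dot_nil]
    refine ⟨?_, ?_, ?_, ?_, trivial⟩
    · intro hh; apply e3; linarith
    · intro hh; linarith
    · intro hh; apply e1; linarith
    · intro hh; apply e2; linarith
  · repeat' first | exact gnil | refine gcons ?_ ?_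
    all_goals (simp only [resG, sgv, dot_cons, dot_nil]; ring)

theorem E2pmLL_c (d : ST A T (1)) (hsg : A.sg = sgv false) (hep : T.ep = sgv true)
    {n U S k U' S' : ℤ} (o : OV T n U S) (f : FT T n U) (hD : A.q * (A.w : ℤ) < A.D)
    (hw : A.q * (A.w : ℤ) + A.q * T.x ≤ A.q * A.h) (hV : U + S < 0)
    (hS : S ≤ A.q * A.w - A.q * A.h) (ck : IsC A k U' S' (th A k)) (hk : k ≠ T.t) (hkn : k ≠ n)
    (b1 : U + A.q * A.w + A.sg ≤ U') (b2 : S - A.q * A.w ≤ S')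
    (b3 : S' + A.q ≤ S) (b4 : U' + S' ≤ 0) : False := by
  have oc := o.oc d
  have fg := f.g d
  have hU := f.u
  rw [hep] at hU
  simp only [sgv] at hU
  simp only [sgv] at hsg hep
  obtain ⟨f1, f2, f3, f4, f5, f6, f7, f8, f9, f10⟩ := d.facts
  have k1 := d.gap ck.2.1
  have k2 := d.gap ck.2.2
  rw [th_zero] at k1
  rw [th_p] at k2
  obtain ⟨c0, c1, c2, c3, c4, c5, c6, c7, c8, c9, c10, c11, c12, c13, c14⟩ := oc
  refine goG d (sp := false) (ep := true) hsg hep o.cn ck o.nt hk hkn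
    (g := E2pmLL_g) (ne := [[0, 0, 0, 0, 0, 0, -1, 0, 1], [0, 0, 0, 0, -1, 0, 1, 0, 1], [0, 0, 0, 0, 0, 0, 1, 0, 0, 0, 0, -1], [0, 0, 0, 0, 0, 0, 0, 0, 1, 0, 0, -1]])
    (la := []) ?_ ?_ ?_ E2pmLL_k
  · try rw [hsg] at *
    unfold E2pmLL_g env
    simp only [AllNn, dot_cons, dot_nil]
    refine ⟨?_, ?_, ?_, ?_, ?_, ?_, ?_, ?_, ?_, ?_, ?_, ?_, ?_, ?_, ?_, ?_, ?_, ?_, ?_, trivial⟩ <;> linarith
  · intro e1 e2 e3
    unfold env
    simp only [AllNe, dot_cons, dot_nil]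
    refine ⟨?_, ?_, ?_, ?_, trivial⟩
    · intro hh; apply e3; linarith
    · intro hh; linarith
    · intro hh; apply e1; linarith
    · intro hh; apply e2; linarith
  · repeat' first | exact gnil | refine gcons ?_ ?_
    all_goals (simp only [resG, sgv, dot_cons, dot_nil]; ring)

theorem E2mpUL_c (d : ST A T (-1)) (hsg : A.sg = sgv true) (hep : T.ep = sgv true)
    {n U S k U' S' : ℤ} (o : OV T n U S) (f : FT T n U) (hD : A.q * (A.w : ℤ) < A.D)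
    (hw : A.q * (A.w : ℤ) + -(A.q * T.x) ≤ A.q * A.h) (hV : U + S < 0)
    (hS : S ≤ A.q * A.w - A.q * A.h) (ck : IsC A k U' S' (th A k)) (hk : k ≠ T.t) (hkn : k ≠ n)
    (b1 : 0 ≤ U') (b2 : S - A.q * A.w ≤ S') (b3 : S' + A.q ≤ S)
    (b4 : U' + S' ≤ U + S) : False := by
  have oc := o.oc d
  have fg := f.g d
  have hU := f.u
  rw [hep] at hU
  simp only [sgv] at hU
  simp only [sgv] at hsg hep
  obtain ⟨f1, f2, f3, f4, f5, f6, f7, f8, f9, f10⟩ := d.facts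
  have k1 := d.gap ck.2.1
  have k2 := d.gap ck.2.2
  rw [th_zero] at k1
  rw [th_p] at k2
  obtain ⟨c0, c1, c2, c3, c4, c5, c6, c7, c8, c9, c10, c11, c12, c13, c14⟩ := oc
  refine goG d (sp := true) (ep := true) hsg hep o.cn ck o.nt hk hkn
    (g := E2mpUL_g) (ne := [[0, 0, 0, 0, 0, 0, -1, 0, 1], [0, 0, 0, 0, -1, 0, 1, 0, 1], [0, 0, 0, 0, 0, 0, 1, 0, 0, 0, 0, -1], [0, 0, 0, 0, 0, 0, 0, 0, 1, 0, 0, -1]])
    (la := []) ?_ ?_ ?_ E2mpUL_k
  · try rw [hsg] at *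
    unfold E2mpUL_g env
    simp only [AllNn, dot_cons, dot_nil]
    refine ⟨?_, ?_, ?_, ?_, ?_, ?_, ?_, ?_, ?_, ?_, ?_, ?_, ?_, ?_, ?_, ?_, ?_, ?_, ?_, trivial⟩ <;> linarith
  · intro e1 e2 e3
    unfold env
    simp only [AllNe, dot_cons, dot_nil]
    refine ⟨?_, ?_, ?_, ?_, trivial⟩
    · intro hh; apply e3; linarith
    · intro hh; linarith
    · intro hh; apply e1; linarith
    · intro hh; apply e2; linarith
  · repeat' first | exact gnil | refine gcons ?_ ?_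
    all_goals (simp only [resG, sgv, dot_cons, dot_nil]; ring)

theorem E2mpLR_c (d : ST A T (-1)) (hsg : A.sg = sgv true) (hep : T.ep = sgv true)
    {n U S k U' S' : ℤ} (o : OV T n U S) (f : FT T n U) (hD : A.q * (A.w : ℤ) < A.D)
    (hw : A.q * (A.w : ℤ) + -(A.q * T.x) ≤ A.q * A.h) (hV : U + S < 0)
    (hS : S ≤ A.q * A.w - A.q * A.h) (ck : IsC A k U' S' (th A k)) (hk : k ≠ T.t) (hkn : k ≠ n)
    (b1 : 0 ≤ U' + A.q * A.w + A.sg) (b2 : U' + 4 ≤ 0)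
    (b3 : S + A.q * A.h ≤ S') (b4 : U + S + 1 ≤ U' + S') (b5 : U' + S' ≤ U + S + A.q * A.h) : False := by
  have oc := o.oc d
  have fg := f.g d
  have hU := f.u
  rw [hep] at hU
  simp only [sgv] at hU
  simp only [sgv] at hsg hep
  obtain ⟨f1, f2, f3, f4, f5, f6, f7, f8, f9, f10⟩ := d.facts
  have k1 := d.gap ck.2.1
  have k2 := d.gap ck.2.2
  rw [th_zero] at k1
  rw [th_p] at k2
  obtain ⟨c0, c1, c2, c3, c4, c5, c6, c7, c8, c9, c10, c11, c12, c13, c14⟩ := oc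
  refine goG d (sp := true) (ep := true) hsg hep o.cn ck o.nt hk hkn
    (g := E2mpLR_g) (ne := [[0, 0, 0, 0, 0, 0, -1, 0, 1], [0, 0, 0, 0, -1, 0, 1, 0, 1], [0, 0, 0, 0, 0, 0, 1, 0, 0, 0, 0, -1], [0, 0, 0, 0, 0, 0, 0, 0, 1, 0, 0, -1]])
    (la := [[0, 0, 1, -1, 0, -1]]) ?_ ?_ ?_ E2mpLR_k
  · try rw [hsg] at *
    unfold E2mpLR_g env
    simp only [AllNn, dot_cons, dot_nil]
    refine ⟨?_, ?_, ?_, ?_, ?_, ?_, ?_, ?_, ?_, ?_, ?_, ?_, ?_, ?_, ?_, ?_, ?_, ?_, ?_, ?_, trivial⟩ <;> linarith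
  · intro e1 e2 e3
    unfold env
    simp only [AllNe, dot_cons, dot_nil]
    refine ⟨?_, ?_, ?_, ?_, trivial⟩
    · intro hh; apply e3; linarith
    · intro hh; linarith
    · intro hh; apply e1; linarith
    · intro hh; apply e2; linarith
  · repeat' first | exact gnil | refine gcons ?_ ?_
    all_goals (simp only [resG, sgv, dot_cons, dot_nil]; ring)

theorem E2mmUL_c (d : ST A T (-1)) (hsg : A.sg = sgv false) (hep : T.ep = sgv true)
    {n U S k U' S' : ℤ} (o : OV T n U S) (f : FT T n U) (hD : A.q * (A.w : ℤ) < A.D)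
    (hw : A.q * (A.w : ℤ) + -(A.q * T.x) ≤ A.q * A.h) (hV : U + S < 0)
    (hS : S ≤ A.q * A.w - A.q * A.h) (ck : IsC A k U' S' (th A k)) (hk : k ≠ T.t) (hkn : k ≠ n)
    (b1 : 0 ≤ U') (b2 : S - A.q * A.w ≤ S') (b3 : S' + A.q ≤ S)
    (b4 : U' + S' ≤ U + S) : False := by
  have oc := o.oc d
  have fg := f.g d
  have hU := f.u
  rw [hep] at hU
  simp only [sgv] at hU
  simp only [sgv] at hsg hep
  obtain ⟨f1, f2, f3, f4, f5, f6, f7, f8, f9, f10⟩ := d.facts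
  have k1 := d.gap ck.2.1
  have k2 := d.gap ck.2.2
  rw [th_zero] at k1
  rw [th_p] at k2
  obtain ⟨c0, c1, c2, c3, c4, c5, c6, c7, c8, c9, c10, c11, c12, c13, c14⟩ := oc
  refine goG d (sp := false) (ep := true) hsg hep o.cn ck o.nt hk hkn
    (g := E2mmUL_g) (ne := [[0, 0, 0, 0, 0, 0, -1, 0, 1], [0, 0, 0, 0, -1, 0, 1, 0, 1], [0, 0, 0, 0, 0, 0, 1, 0, 0, 0, 0, -1], [0, 0, 0, 0, 0, 0, 0, 0, 1, 0, 0, -1]])
    (la := []) ?_ ?_ ?_ E2mmUL_k
  · try rw [hsg] at *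
    unfold E2mmUL_g env
    simp only [AllNn, dot_cons, dot_nil]
    refine ⟨?_, ?_, ?_, ?_, ?_, ?_, ?_, ?_, ?_, ?_, ?_, ?_, ?_, ?_, ?_, ?_, ?_, ?_, ?_, trivial⟩ <;> linarith
  · intro e1 e2 e3
    unfold env
    simp only [AllNe, dot_cons, dot_nil]
    refine ⟨?_, ?_, ?_, ?_, trivial⟩
    · intro hh; apply e3; linarith
    · intro hh; linarith
    · intro hh; apply e1; linarith
    · intro hh; apply e2; linarith
  · repeat' first | exact gnil | refine gcons ?_ ?_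
    all_goals (simp only [resG, sgv, dot_cons, dot_nil]; ring)

theorem E2mmLR_c (d : ST A T (-1)) (hsg : A.sg = sgv false) (hep : T.ep = sgv true)
    {n U S k U' S' : ℤ} (o : OV T n U S) (f : FT T n U) (hD : A.q * (A.w : ℤ) < A.D)
    (hw : A.q * (A.w : ℤ) + -(A.q * T.x) ≤ A.q * A.h) (hV : U + S < 0)
    (hS : S ≤ A.q * A.w - A.q * A.h) (ck : IsC A k U' S' (th A k)) (hk : k ≠ T.t) (hkn : k ≠ n)
    (b1 : 0 ≤ U' + A.q * A.w + A.sg) (b2 : U' + 4 ≤ 0)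
    (b3 : S + A.q * A.h ≤ S') (b4 : U + S + 1 ≤ U' + S') (b5 : U' + S' ≤ U + S + A.q * A.h) : False := by
  have oc := o.oc d
  have fg := f.g d
  have hU := f.u
  rw [hep] at hU
  simp only [sgv] at hU
  simp only [sgv] at hsg hep
  obtain ⟨f1, f2, f3, f4, f5, f6, f7, f8, f9, f10⟩ := d.facts
  have k1 := d.gap ck.2.1
  have k2 := d.gap ck.2.2
  rw [th_zero] at k1
  rw [th_p] at k2
  obtain ⟨c0, c1, c2, c3, c4, c5, c6, c7, c8, c9, c10, c11, c12, c13, c14⟩ := oc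
  refine goG d (sp := false) (ep := true) hsg hep o.cn ck o.nt hk hkn
    (g := E2mmLR_g) (ne := [[0, 0, 0, 0, 0, 0, -1, 0, 1], [0, 0, 0, 0, -1, 0, 1, 0, 1], [0, 0, 0, 0, 0, 0, 1, 0, 0, 0, 0, -1], [0, 0, 0, 0, 0, 0, 0, 0, 1, 0, 0, -1]])
    (la := []) ?_ ?_ ?_ E2mmLR_k
  · try rw [hsg] at *
    unfold E2mmLR_g env
    simp only [AllNn, dot_cons, dot_nil]
    refine ⟨?_, ?_, ?_, ?_, ?_, ?_, ?_, ?_, ?_, ?_, ?_, ?_, ?_, ?_, ?_, ?_, ?_, ?_, ?_, ?_, trivial⟩ <;> linarith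
  · intro e1 e2 e3
    unfold env
    simp only [AllNe, dot_cons, dot_nil]
    refine ⟨?_, ?_, ?_, ?_, trivial⟩
    · intro hh; apply e3; linarith
    · intro hh; linarith
    · intro hh; apply e1; linarith
    · intro hh; apply e2; linarith
  · repeat' first | exact gnil | refine gcons ?_ ?_
    all_goals (simp only [resG, sgv, dot_cons, dot_nil]; ring)

end Pool.Agent.H78.HL
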